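import Pool.Agent.helper21.WB.Defs

/-! MP_7b8095_gt, part I: the smallness scale `sinf` (definition only). -/

set_option autoImplicit false
open Matrix MeasureTheory

namespace Pool.Agent.helper21.WB

/-- the smallness scale at `y`: `min 1 (inf_{γ ≠ 1} |γ-1|_y)` -/
noncomputable def sinf (Γ : Subgroup GLI) (y : X) : ℝ :=
  sInf (insert 1 {s : ℝ | ∃ γ ∈ Γ, γ ≠ 1 ∧ s = sm y γ})

end Pool.Agent.helper21.WB
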