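import Pool.Agent.helper21.WB.LibB5
import Pool.Agent.helper40.WB.SinfDef

/-! MP_7b8095_gt, part I: basic facts on the smallness scale `sinf`. -/

set_option autoImplicit false
open Matrix MeasureTheory

namespace Pool.Agent.helper21.WB

namespace SinfAux

theorem sm_nonneg (y : X) (γ : GLI) : 0 ≤ sm y γ := nrm_nonneg y _

theorem bdd (Γ : Subgroup GLI) (y : X) :
    BddBelow (insert (1:ℝ) {s : ℝ | ∃ γ ∈ Γ, γ ≠ 1 ∧ s = sm y γ}) := by
  refine ⟨0, ?_⟩
  rintro s (rfl | ⟨γ, _, _, rfl⟩)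
  · exact zero_le_one
  · exact sm_nonneg y γ

theorem finite_sm_le {Γ : Subgroup GLI} (hΓ : Disc Γ) (y : X) (R : ℝ) :
    {γ | γ ∈ Γ ∧ sm y γ ≤ R}.Finite := by
  refine (finite_near hΓ y 0 (Real.arcosh (1 + max R 0))).subset ?_
  rintro γ ⟨h1, h2⟩
  refine ⟨h1, y, (hd_self y).le, ?_⟩
  have h3 := ch_le_of_sm (hΓ.inG γ h1) y
  have h4 : ch y (act γ y) ≤ 1 + max R 0 := by
    have := le_max_left R 0
    linarith
  have h5 := one_le_ch y (act γ y)
  unfold hd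
  rw [Real.arcosh_le_arcosh (by linarith) (by linarith)]
  exact h4

/-- a positive lower bound for all nontrivial elements -/
theorem exists_lb {Γ : Subgroup GLI} (hΓ : Disc Γ) (y : X) :
    ∃ ε : ℝ, 0 < ε ∧ ε ≤ 1 ∧ ∀ γ ∈ Γ, γ ≠ 1 → ε ≤ sm y γ := by
  classical
  set T : Finset GLI := (finite_sm_le hΓ y 1).toFinset.filter (fun γ => γ ≠ 1) with hT
  by_cases hne : T.Nonempty
  · obtain ⟨γ₀, h0, hmin⟩ := Finset.exists_min_image T (fun γ => sm y γ) hne
    have h01 : γ₀ ≠ 1 := (Finset.mem_filter.1 h0).2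
    have hpos : 0 < sm y γ₀ := lt_of_le_of_ne (sm_nonneg _ _)
      (fun h => h01 ((sm_eq_zero y γ₀).1 h.symm))
    refine ⟨min 1 (sm y γ₀), lt_min one_pos hpos, min_le_left _ _, ?_⟩
    intro γ hγ h1
    by_cases hle : sm y γ ≤ 1
    · refine (min_le_right _ _).trans (hmin γ ?_)
      rw [hT, Finset.mem_filter, Set.Finite.mem_toFinset]
      exact ⟨⟨hγ, hle⟩, h1⟩
    · exact (min_le_left _ _).trans (not_le.1 hle).le
  · refine ⟨1, one_pos, le_rfl, ?_⟩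
    intro γ hγ h1
    by_contra hlt
    apply hne
    refine ⟨γ, ?_⟩
    rw [hT, Finset.mem_filter, Set.Finite.mem_toFinset]
    exact ⟨⟨hγ, (not_le.1 hlt).le⟩, h1⟩

end SinfAux

open SinfAux

theorem sinf_le_one {Γ : Subgroup GLI} (y : X) : sinf Γ y ≤ 1 :=
  csInf_le (bdd Γ y) (Set.mem_insert _ _)

theorem sinf_le {Γ : Subgroup GLI} {y : X} {γ : GLI} (hγ : γ ∈ Γ) (h1 : γ ≠ 1) : sinf Γ y ≤ sm y γ :=
  csInf_le (bdd Γ y) (Set.mem_insert_of_mem _ ⟨γ, hγ, h1, rfl⟩)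

theorem sinf_pos {Γ : Subgroup GLI} (hΓ : Disc Γ) (y : X) : 0 < sinf Γ y := by
  obtain ⟨ε, h0, h1, h2⟩ := exists_lb hΓ y
  refine h0.trans_le (le_csInf ⟨1, Set.mem_insert _ _⟩ ?_)
  rintro s (rfl | ⟨γ, hγ, hne, rfl⟩)
  · exact h1
  · exact h2 γ hγ hne

theorem sinf_lip {Γ : Subgroup GLI} (hΓ : Disc Γ) (x y : X) :
    sinf Γ y ≤ Real.exp (2 * hd x y) * sinf Γ x := by
  have he : 0 < Real.exp (2 * hd x y) := Real.exp_pos _
  rw [← div_le_iff₀' he]
  refine le_csInf ⟨1, Set.mem_insert _ _⟩ ?_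
  rintro s (rfl | ⟨γ, hγ, hne, rfl⟩)
  · rw [div_le_iff₀' he, mul_one]
    have h1 : 1 ≤ Real.exp (2 * hd x y) := Real.one_le_exp (by have := hd_nonneg x y; linarith)
    exact (sinf_le_one y).trans h1
  · rw [div_le_iff₀' he]
    exact (sinf_le hγ hne).trans (sm_lip x y γ)

theorem continuous_sinf {Γ : Subgroup GLI} (hΓ : Disc Γ) : Continuous (sinf Γ) := by
  rw [continuous_iff_continuousAt]
  intro x
  have hc : Continuous (fun y : X => hd x y) :=
    continuous_hd.comp (continuous_const.prodMk continuous_id)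
  have h1 : Filter.Tendsto (fun y => Real.exp (2 * hd x y) * sinf Γ x) (nhds x) (nhds (sinf Γ x)) := by
    have : Continuous (fun y : X => Real.exp (2 * hd x y) * sinf Γ x) := by fun_prop
    have h := this.tendsto x
    simpa [hd_self] using h
  have h2 : Filter.Tendsto (fun y => Real.exp (-(2 * hd x y)) * sinf Γ x) (nhds x)
      (nhds (sinf Γ x)) := by
    have : Continuous (fun y : X => Real.exp (-(2 * hd x y)) * sinf Γ x) := by fun_prop
    have h := this.tendsto x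
    simpa [hd_self] using h
  refine tendsto_of_tendsto_of_tendsto_of_le_of_le h2 h1 ?_ ?_
  · intro y
    have h := sinf_lip hΓ y x
    rw [hd_comm y x] at h
    show Real.exp (-(2 * hd x y)) * sinf Γ x ≤ sinf Γ y
    rw [Real.exp_neg, inv_mul_le_iff₀ (Real.exp_pos _)]
    exact h
  · intro y
    exact sinf_lip hΓ x y

theorem sinf_act {Γ : Subgroup GLI} (hΓ : Disc Γ) {γ : GLI} (hγ : γ ∈ Γ) (y : X) :
    sinf Γ (act γ y) = sinf Γ y := by
  unfold sinf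
  congr 2
  ext s
  constructor
  · rintro ⟨δ, hδ, hne, rfl⟩
    refine ⟨γ⁻¹ * δ * γ, Γ.mul_mem (Γ.mul_mem (Γ.inv_mem hγ) hδ) hγ, ?_, ?_⟩
    · intro h
      apply hne
      have : δ = γ * (γ⁻¹ * δ * γ) * γ⁻¹ := by group
      rw [this, h]; group
    · rw [← sm_conj (hΓ.inG γ hγ) y (γ := γ⁻¹ * δ * γ)]
      congr 1; group
  · rintro ⟨δ, hδ, hne, rfl⟩
    refine ⟨γ * δ * γ⁻¹, Γ.mul_mem (Γ.mul_mem hγ hδ) (Γ.inv_mem hγ), ?_, ?_⟩
    · intro h
      apply hne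
      have : δ = γ⁻¹ * (γ * δ * γ⁻¹) * γ := by group
      rw [this, h]; group
    · rw [sm_conj (hΓ.inG γ hγ) y]

end Pool.Agent.helper21.WB
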